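import Pool.Agent.Run7.h293.PA.Quartic
import Pool.Agent.Run7.h293.PA.Known

/-!
# The `2`-parity conjecture over quartic fields with totally real cubic resolvent

Let `K/F` be a quartic extension of number fields whose Galois closure has group `S₄`, and let `R` be its
cubic resolvent. A relation between permutation representations of `S₄` and the theorem of Kramer-Tunnell
for the quadratic extension of `R` of degree six over `F` show that the `2`-parity conjecture for a curve
`E₀/F` over `K` is equivalent to the equivalence of the conjectures over `F` and `R`. So it holds over `K`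
if `F` and `R` are totally real, or if `F` is totally real and `E₀` has a point of order two over `R`. By
the theorem of Green-Maistret it then holds for every `E/K` with `E[2] ≅ E₀[2]`.

The known theorems are hypotheses (definitions in `Run7/h293/PA/Known.lean`); the relation in `S₄` is in
`Run7/h293/PA/Quartic.lean`.
-/

set_option autoImplicit false

namespace Pool.Agent.Results.MP_ddf76b_nt.QuarticFields

open Pool.Agent.Run7.h293.PA

section fields

variable {F Ω : Type} [Field F] [Field Ω] [Algebra F Ω]

/-- the quartic field: the fixed field of the stabilizer of the point `0` -/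
abbrev Quartic (e : (Ω ≃ₐ[F] Ω) ≃* Equiv.Perm (Fin 4)) : IntermediateField F Ω :=
  IntermediateField.fixedField (pointGroup.comap e.toMonoidHom)

/-- the cubic resolvent: the fixed field of the group of order eight which preserves the partition
`{{0, 1}, {2, 3}}` -/
abbrev Resolvent (e : (Ω ≃ₐ[F] Ω) ≃* Equiv.Perm (Fin 4)) : IntermediateField F Ω :=
  IntermediateField.fixedField (pairingGroup.comap e.toMonoidHom)

/-- the curve `E₀/F` over the intermediate field `L` -/
abbrev baseTo (E₀ : WeierstrassCurve F) (L : IntermediateField F Ω) : WeierstrassCurve L :=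
  E₀.map (algebraMap F L)

/-- all curves `E/L` with `E[2] ≅ E₀[2]` over `L` have the property `Q` -/
def ForCongruent (E₀ : WeierstrassCurve F) (L : IntermediateField F Ω)
    (Q : WeierstrassCurve L → Prop) : Prop :=
  ∀ E : WeierstrassCurve L, E.IsElliptic → SameTwoTorsion E (baseTo E₀ L) → Q E

end fields

/-- the sign `(-1)^rk · w` of a curve `E/L` -/
def sgn (rk : Invariant ℕ) (w : Invariant ℤ) (L : Type) [Field L] [NumberField L]
    (E : WeierstrassCurve L) : ℤ :=
  (-1) ^ rk.val L E * w.val L E

/-- the sign of a curve `E₀/F` over the fixed field of the subgroup `H` of `Gal(Ω/F)` -/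
def sgnAt (rk : Invariant ℕ) (w : Invariant ℤ) {F Ω : Type} [Field F] [NumberField F] [Field Ω]
    [NumberField Ω] [Algebra F Ω] (E₀ : WeierstrassCurve F) (H : Subgroup (Ω ≃ₐ[F] Ω)) : ℤ :=
  sgn rk w (IntermediateField.fixedField H) (baseTo E₀ (IntermediateField.fixedField H))

/-- invariance under isomorphisms of the ground field -/
def Iso (rk : Invariant ℕ) (w : Invariant ℤ) : Prop :=
  ∀ (K K' : Type) [Field K] [NumberField K] [Field K'] [NumberField K'] [Algebra K K'],
    Module.finrank K K' = 1 → ∀ W : WeierstrassCurve K, W.IsElliptic →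
      sgn rk w K' (W.map (algebraMap K K')) = sgn rk w K W

/-- Artin formalism: the sign of `E₀` over the intermediate fields of a Galois extension is
multiplicative in relations of permutation characters -/
def Artin (rk : Invariant ℕ) (w : Invariant ℤ) : Prop :=
  ∀ (F Ω : Type) [Field F] [NumberField F] [Field Ω] [NumberField Ω] [Algebra F Ω]
    [IsGalois F Ω] (A B C D : Subgroup (Ω ≃ₐ[F] Ω)), Relation A B C D →
    ∀ E₀ : WeierstrassCurve F, E₀.IsElliptic →
      sgnAt rk w E₀ A * sgnAt rk w E₀ B = sgnAt rk w E₀ C * sgnAt rk w E₀ D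

/-- additivity in a quadratic extension: the sign of `W` over `K` is the product of the signs over `F` of
`W` and of its quadratic twist `W'` by `K/F` -/
def Twist (rk : Invariant ℕ) (w : Invariant ℤ) : Prop :=
  ∀ (F K : Type) [Field F] [NumberField F] [Field K] [NumberField K] [Algebra F K],
    Module.finrank F K = 2 → ∀ W : WeierstrassCurve F, W.IsElliptic →
      ∃ W' : WeierstrassCurve F, W'.IsElliptic ∧
        sgn rk w K (W.map (algebraMap F K)) = sgn rk w F W * sgn rk w F W'

/-- The known theorems on the `p`-infinity Selmer ranks `rk p` and the global root number `w` of elliptic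
curves over number fields which we use. -/
structure Known (rk : ℕ → Invariant ℕ) (w : Invariant ℤ) : Prop where
  /-- the root number is a sign -/
  sign : Sign w
  /-- invariance under isomorphisms of the ground field -/
  iso : ∀ p, p.Prime → Iso (rk p) w
  /-- additivity in quadratic extensions -/
  twist : ∀ p, p.Prime → Twist (rk p) w
  /-- Artin formalism -/
  artin : ∀ p, p.Prime → Artin (rk p) w
  /-- Nekovář, Green-Maistret: totally real fields -/
  totallyReal : ∀ p, p.Prime → TotallyReal (rk p) w
  /-- Green-Maistret: curves with isomorphic `2`-torsion -/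
  congruent : Congruent (rk 2) w
  /-- Kramer-Tunnell, Dokchitser-Dokchitser: base changes to quadratic extensions -/
  quadratic : Quadratic (rk 2) w
  /-- Dokchitser-Dokchitser: curves with a rational point of order two -/
  isogeny : Isogeny (rk 2) w

section proof

variable {rk : Invariant ℕ} {w : Invariant ℤ}

theorem sgn_eq_one (h : Sign w) (L : Type) [Field L] [NumberField L] (E : WeierstrassCurve L)
    (hE : E.IsElliptic) : sgn rk w L E = 1 ↔ Parity rk w L E := by
  unfold sgn Parity
  rcases h L E hE with h1 | h1 <;> rw [h1]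
  · rw [mul_one]
  · constructor
    · intro h2
      linarith
    · intro h2
      rw [h2]
      norm_num

theorem sgn_sign (h : Sign w) (L : Type) [Field L] [NumberField L] (E : WeierstrassCurve L)
    (hE : E.IsElliptic) : sgn rk w L E = 1 ∨ sgn rk w L E = -1 := by
  unfold sgn
  rcases h L E hE with h1 | h1 <;>
    rcases neg_one_pow_eq_or ℤ (rk.val L E) with h2 | h2 <;> rw [h1, h2] <;> norm_num

variable {F Ω : Type} [Field F] [NumberField F] [Field Ω] [NumberField Ω] [Algebra F Ω]
  [IsGalois F Ω]

theorem sgn_top (h : Iso rk w) (E₀ : WeierstrassCurve F) (hE₀ : E₀.IsElliptic) :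
    sgn rk w (IntermediateField.fixedField (⊤ : Subgroup (Ω ≃ₐ[F] Ω)))
      (baseTo E₀ (IntermediateField.fixedField (⊤ : Subgroup (Ω ≃ₐ[F] Ω)))) = sgn rk w F E₀ := by
  have hfin : FiniteDimensional F Ω := Module.Finite.of_restrictScalars_finite ℚ F Ω
  have h1 : Module.finrank F (IntermediateField.fixedField (⊤ : Subgroup (Ω ≃ₐ[F] Ω))) = 1 := by
    rw [IsGalois.fixedField_top, IntermediateField.finrank_bot]
  exact h F (IntermediateField.fixedField (⊤ : Subgroup (Ω ≃ₐ[F] Ω))) h1 E₀ hE₀

omit [NumberField F] [NumberField Ω] [IsGalois F Ω] in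
theorem relation (e : (Ω ≃ₐ[F] Ω) ≃* Equiv.Perm (Fin 4)) :
    Relation (pairGroup.comap e.toMonoidHom) ⊤ (pairingGroup.comap e.toMonoidHom)
      (pointGroup.comap e.toMonoidHom) := by
  intro g
  have h1 : (⊤ : Subgroup (Ω ≃ₐ[F] Ω)) = (⊤ : Subgroup (Equiv.Perm (Fin 4))).comap e.toMonoidHom :=
    (Subgroup.comap_top _).symm
  rw [h1, ind_comap, ind_comap, ind_comap, ind_comap]
  exact brauer _

/-- the sextic field is a quadratic extension of the cubic resolvent -/
theorem sextic (e : (Ω ≃ₐ[F] Ω) ≃* Equiv.Perm (Fin 4))
    (E₀ : WeierstrassCurve F) (Q : ∀ (S : Type) [Field S] [NumberField S], WeierstrassCurve S → Prop)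
    (hQ : ∀ (R : IntermediateField F Ω) (S : IntermediateField F Ω) [Algebra R S],
      R = Resolvent e → Module.finrank R S = 2 → Q S ((baseTo E₀ R).map (algebraMap R S))) :
    Q (IntermediateField.fixedField (pairGroup.comap e.toMonoidHom))
      (baseTo E₀ (IntermediateField.fixedField (pairGroup.comap e.toMonoidHom))) := by
  have hfin : FiniteDimensional F Ω := Module.Finite.of_restrictScalars_finite ℚ F Ω
  set R := Resolvent e with hR
  set S := IntermediateField.fixedField (pairGroup.comap e.toMonoidHom) with hS
  have hle : R ≤ S := IntermediateField.fixedField_le (Subgroup.comap_mono pair_le)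
  let _ : Algebra R S := (IntermediateField.inclusion hle).toRingHom.toAlgebra
  have _ : IsScalarTower F R S := IsScalarTower.of_algebraMap_eq fun x => rfl
  have h1 : Module.finrank R Ω = 8 := by
    rw [hR, IntermediateField.finrank_fixedField_eq_card, card_comap, card_pairing]
  have h2 : Module.finrank S Ω = 4 := by
    rw [hS, IntermediateField.finrank_fixedField_eq_card, card_comap, card_pair]
  have h3 := Module.finrank_mul_finrank F R Ω
  have h4 := Module.finrank_mul_finrank F S Ω
  have h5 := Module.finrank_mul_finrank F R S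
  have h6 : 0 < Module.finrank F R := Module.finrank_pos
  have h7 : Module.finrank R S = 2 := by
    rw [h1] at h3
    rw [h2] at h4
    have h8 : Module.finrank F R * Module.finrank R S * 4 = Module.finrank F R * 2 * 4 := by
      rw [h5, h4, ← h3]
      ring
    have h9 := Nat.eq_of_mul_eq_mul_right (by norm_num : 0 < 4) h8
    exact Nat.eq_of_mul_eq_mul_left h6 h9
  have h10 := hQ R S rfl h7
  unfold baseTo at h10
  rw [WeierstrassCurve.map_map, ← IsScalarTower.algebraMap_eq] at h10
  exact h10

end proof

/-- **The `p`-parity conjecture over quartic fields.** Let `K/F` be a quartic extension of number fields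
whose Galois closure `Ω` has group `S₄`, `R` its cubic resolvent and `E₀/F` an elliptic curve.
If `F` and `R` are totally real, the `p`-parity conjecture holds for `E₀/K` and every prime `p`. For `p = 2`
it holds for all `E/K` with `E[2] ≅ E₀[2]` over `K` if `F` is totally real and `R` is totally real or `E₀` has
a point of order two over `R`; in general `2`-parity for `E/K` is equivalent to the equivalence of
`2`-parity for `E₀/F` and `E₀/R`. -/
theorem result (rk : ℕ → Invariant ℕ) (w : Invariant ℤ) (h : Known rk w) (F Ω : Type) [Field F]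
    [NumberField F] [Field Ω] [NumberField Ω] [Algebra F Ω] [IsGalois F Ω]
    (e : (Ω ≃ₐ[F] Ω) ≃* Equiv.Perm (Fin 4)) (E₀ : WeierstrassCurve F) (hE₀ : E₀.IsElliptic) :
    (NumberField.IsTotallyReal F → NumberField.IsTotallyReal (Resolvent e) →
      ∀ p : ℕ, p.Prime → Parity (rk p) w (Quartic e) (baseTo E₀ (Quartic e))) ∧
    (NumberField.IsTotallyReal F →
      (NumberField.IsTotallyReal (Resolvent e) ∨ HasTwoTorsion (baseTo E₀ (Resolvent e))) →
      ForCongruent E₀ (Quartic e) (Parity (rk 2) w (Quartic e))) ∧
    ForCongruent E₀ (Quartic e) (fun E => Parity (rk 2) w (Quartic e) E ↔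
      (Parity (rk 2) w F E₀ ↔ Parity (rk 2) w (Resolvent e) (baseTo E₀ (Resolvent e)))) := by
  have h1 : ForCongruent E₀ (Quartic e) (fun E => Parity (rk 2) w (Quartic e) E ↔
      (Parity (rk 2) w F E₀ ↔ Parity (rk 2) w (Resolvent e) (baseTo E₀ (Resolvent e)))) := by
    intro E hE hs
    have h2 : Parity (rk 2) w (Quartic e) E ↔
        Parity (rk 2) w (Quartic e) (baseTo E₀ (Quartic e)) :=
      ⟨fun hp => parity_of_congruent h.sign h.congruent inferInstance hE
          ⟨(Classical.choice hs).symm⟩ hp,
        fun hp => parity_of_congruent h.sign h.congruent hE inferInstance hs hp⟩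
    have h3 := h.artin 2 Nat.prime_two F Ω _ _ _ _ (relation e) E₀ hE₀
    unfold sgnAt at h3
    have h6 := sextic e E₀ (fun S _ _ E => sgn (rk 2) w S E = 1) (by
      intro R S _ hR hRS
      rw [sgn_eq_one h.sign S _ inferInstance]
      exact h.quadratic R S hRS (baseTo E₀ R) inferInstance)
    rw [h6, one_mul, sgn_top (h.iso 2 Nat.prime_two) E₀ hE₀] at h3
    rw [h2, ← sgn_eq_one h.sign F E₀ hE₀, h3,
      ← sgn_eq_one h.sign (Quartic e) (baseTo E₀ (Quartic e)) inferInstance,
      ← sgn_eq_one h.sign (Resolvent e) (baseTo E₀ (Resolvent e)) inferInstance]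
    rcases sgn_sign (rk := rk 2) h.sign (Quartic e) (baseTo E₀ (Quartic e)) inferInstance with h4 | h4 <;>
      rcases sgn_sign (rk := rk 2) h.sign (Resolvent e) (baseTo E₀ (Resolvent e)) inferInstance
        with h5 | h5 <;>
      rw [h4, h5] <;> norm_num
  refine ⟨fun hF hR p hp => ?_, fun hF hR E hE hs => (h1 E hE hs).2
    ⟨fun _ => ?_, fun _ => h.totallyReal 2 Nat.prime_two F hF E₀ hE₀⟩, h1⟩
  · have h3 := h.artin p hp F Ω _ _ _ _ (relation e) E₀ hE₀
    unfold sgnAt at h3
    have h6 := sextic e E₀ (fun S _ _ E => sgn (rk p) w S E = 1) (by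
      intro R S _ hR' hRS
      have hR2 : NumberField.IsTotallyReal R := by
        rw [hR']
        exact hR
      obtain ⟨W', hW', h7⟩ := h.twist p hp R S hRS (baseTo E₀ R) inferInstance
      rw [h7, (sgn_eq_one h.sign R _ inferInstance).2 (h.totallyReal p hp R hR2 _ inferInstance),
        (sgn_eq_one h.sign R _ hW').2 (h.totallyReal p hp R hR2 _ hW'), one_mul])
    rw [h6, one_mul, sgn_top (h.iso p hp) E₀ hE₀,
      (sgn_eq_one h.sign F E₀ hE₀).2 (h.totallyReal p hp F hF E₀ hE₀)] at h3
    have h8 := (sgn_eq_one h.sign (Resolvent e) (baseTo E₀ (Resolvent e)) inferInstance).2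
      (h.totallyReal p hp (Resolvent e) hR _ inferInstance)
    rw [← sgn_eq_one h.sign (Quartic e) (baseTo E₀ (Quartic e)) inferInstance, h3]
    change _ = sgn (rk p) w (Resolvent e) (baseTo E₀ (Resolvent e)) * _
    rw [h8, one_mul]
  · rcases hR with hR | hR
    · exact h.totallyReal 2 Nat.prime_two _ hR _ inferInstance
    · exact h.isogeny _ _ inferInstance hR

end Pool.Agent.Results.MP_ddf76b_nt.QuarticFields
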