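import Pool.Agent.Run7.h293.TS.A

/-!
# The Tate conjecture for divisors on semistable surfaces over `ℚ`

Let `X` be a smooth projective surface over a number field `F`, with the Galois representation
`V = H²(X, ℚ_ℓ(1))`, the cup product form and the space of divisor classes (`SurfaceRep`). We suppose
that `X` has semistable reduction at all finite places, in the following sense.

* `Semistable`: the inertia groups at the places which do not divide `ℓ` act by unipotent
  endomorphisms on `V` (Rapoport-Zink, if the reduction is semistable).
* `SemistableAt`: on a Galois stable subspace on which a subgroup of finite index acts trivially the inertia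
  groups above `ℓ` act trivially. This holds if `V` is a semistable representation at the places above
  `ℓ` (a potentially unramified semistable representation is unramified), so if the reduction is semistable.

**Theorem 1.** The cohomology classes fixed by a subgroup `H` of finite index are fixed by all the inertia
groups: the Tate conjecture for divisors on `X` over a finite extension `E` of `F` is equivalent
to the Tate conjecture over the intersection of `E` with the largest extension of `F` which is unramified
at all finite places, and all divisor classes are defined over this extension.

**Theorem 2.** If `F` has no unramified extension, for instance `F = ℚ` (theorem of Minkowski), then the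
Galois group acts trivially on the divisor classes and on all Tate classes, and the Tate conjecture
for divisors on `X` over `F` is equivalent to the Tate conjecture over each finite extension of `F`.

**Theorem 3.** Suppose moreover (`Fontaine`) that on a Galois stable subspace of `V` on which the inertia groups
outside `ℓ` act trivially the Galois group acts trivially. By the theorem of Fontaine (Schémas
propres et lisses sur `Z`) this holds for `F = ℚ` and `ℓ = 7` if `X` has good reduction at `7` (a subspace is
crystalline with weights in `[-1, 1]`, hence a successive extension of powers of the
cyclotomic character; by the weights these are trivial; and an extension of trivial representations which is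
crystalline at `7` and unramified elsewhere is trivial). Then

* a class is a Tate class over `E` if and only if it is fixed by the inertia groups at the places which do not
  divide `ℓ`: the Frobenius elements play no role;
* the Tate conjecture for divisors over `E` holds if and only if the transcendental part, the orthogonal complement
  of the divisor classes, is spanned by the images of the elements `σ - 1`, for `σ` in the
  inertia groups at the places which do not divide `ℓ`;
* the Picard number over the algebraic closure is at most `b₂` minus the rank of the span of these images,
  with equality if and only if the Tate conjecture holds.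
-/

set_option autoImplicit false

namespace Pool.Agent.Results.MP_97f789_ag.SemistableOverQ

open Run7.h293.TS Module Pool.Agent.W569.FM

/-- **The Tate conjecture for divisors on semistable surfaces.** -/
theorem result :
    -- the field of rational numbers has no unramified extension
    NoUnramified ℚ ∧
    (∀ (F K V : Type) [Field F] [Field K] [CharZero K] [TopologicalSpace K] [T1Space K]
      [AddCommGroup V] [Module K V] [FiniteDimensional K V] (X : SurfaceRep F K V) (ℓ : ℕ),
      X.Semistable ℓ →
        -- 1. and 2.
        (X.SemistableAt ℓ → X.OverUnramified ∧ (NoUnramified F → X.OverBase)) ∧
        -- 3.
        (X.Fontaine ℓ → ∀ H : Subgroup (GF F), H.FiniteIndex → X.Criterion ℓ H)) := by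
  refine ⟨noUnramified_rat, ?_⟩
  intro F K V _ _ _ _ _ _ _ _ X ℓ hs
  refine ⟨fun hℓ => ⟨⟨?_, fun H hH => ⟨fun x hx => unr_fix hs hℓ hH hx, ?_⟩⟩, ?_⟩, ?_⟩
  · intro c hc g hg
    obtain ⟨H, hH, h⟩ := X.algebraic c hc
    exact unr_fix hs hℓ hH h g (Subgroup.mem_sup_right hg)
  · constructor
    · intro h x hx
      exact h x fun g hg => hx g (Subgroup.mem_sup_left hg)
    · intro h x hx
      exact h x (unr_fix hs hℓ hH hx)
  · intro hF
    refine ⟨?_, fun H hH => ⟨fun x hx g _ => all_fix hF hs hℓ hH hx g, ?_⟩⟩
    · intro c hc g _
      obtain ⟨H, hH, h⟩ := X.algebraic c hc
      exact all_fix hF hs hℓ hH h g
    · constructor
      · intro h x hx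
        exact h x fun g _ => hx g (Subgroup.mem_top g)
      · intro h x hx
        exact h x fun g _ => all_fix hF hs hℓ hH hx g
  · intro hFo H hH
    obtain ⟨h1, h2, h3⟩ := tate_iff_mono hs hFo hH
    exact ⟨fun x => fontaine_fix hs hFo hH, h1, h2, h3⟩

end Pool.Agent.Results.MP_97f789_ag.SemistableOverQ
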