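import Pool.Agent.Run7.h293.GT.A

/-!
# The generalized Tate conjecture for varieties with semistable reduction everywhere

Let `X` be a smooth projective variety over a number field `F` and `V = H^i(X, ℚ_ℓ)` (`Rep`: the coefficients
are in a topological field `K` of characteristic `0`). We suppose that `X` has semistable reduction at all
finite places, in the following sense.

* `Unipotent`: the inertia groups at the places which do not divide `ℓ` act by unipotent endomorphisms.
* `ConnectedAt`: the inertia groups above `ℓ` map each member of a finite Galois stable set of subspaces
  of `V` to itself. This holds if `V` is semistable at the places above `ℓ`, so if the reduction is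
  semistable: the Zariski closure of the image of the inertia group is then connected, because a
  semistable representation on which an open subgroup of the inertia group acts trivially is unramified.

**Theorem.** Let `H` be a subgroup of finite index of the absolute Galois group of `F`, the Galois
group of the field `E`.

1. All subspaces of `V` which are stable under `H` are stable under all inertia groups. So they are
  subrepresentations over the intersection of `E` with the largest extension `F^unr` of `F` which is
  unramified at all finite places; and over `F` if `F` has no unramified extension, e. g. `F = ℚ`.
2. For all `ν` the subrepresentations `U` over `E` such that `U(ν)` is effective of weight `i - 2 ν` are the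
  same as those over `E ∩ F^unr`, and those over `F` if `F` has no unramified extension.
3. The Galois coniveau `N_ℓ^ν H^i` is the same over `E` and `E ∩ F^unr` (over all finite
  extensions, if `F` has no unramified extension), for all `ν`. So the generalized Tate conjecture
  `N^ν H^i = N_ℓ^ν H^i` for `X` over `ℚ` is equivalent to the generalized Tate conjecture for `X` over
  each number field, and all subrepresentations of `V` over number fields which should come from a
  subvariety of codimension `ν` are defined over `ℚ`.

Here the geometric coniveau `N^ν H^i` does not depend on the field (a closed subset defined over `E` is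
contained in the union of its conjugates). Without a condition on the reduction there are in general many
more stable subspaces over `E` than over `F`.

The proof: the stabilizer of an `H`-stable subspace `W` has finite index, so a power of an element `σ` of an
inertia group outside `ℓ` maps `W` to itself, and so does `σ`, as a unipotent endomorphism `A` is a polynomial in
`A ^ n`. The stabilizer is closed, hence open, and Minkowski's theorem (library `Pool.Agent.W215`) is used for `ℚ`.
For the effectivity one takes powers of the Frobenius elements: their eigenvalues are the
powers of the eigenvalues, and integrality and absolute values can be tested on powers.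
-/

set_option autoImplicit false

namespace Pool.Agent.Results.MP_8abef2_ag.SemistableVarieties

open Run7.h293.GT Run7.h293.CN Run7.h293.TS Module Pool.Agent.W569.FM

section

variable {F K V : Type} [Field F] [Field K] [CharZero K] [TopologicalSpace K] [AddCommGroup V]
  [Module K V] (X : Rep F K V)

/-- The generalized Tate conjecture for `H^i` and `ν` over the fixed field of the subgroup `H`: the
geometric coniveau `N` is the Galois coniveau. -/
def GeneralizedTate (ℓ : ℕ) (H : Subgroup (GF F)) (i ν : ℕ) (N : Submodule K V) : Prop :=
  N = galoisConiveau X ℓ H i ν

/-- The representations of `H` and `H'` have the same stable subspaces, the same effective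
subrepresentations, the same Galois coniveau, and the generalized Tate conjectures over the two fields are
equivalent. -/
def SameSubrepresentations (ℓ : ℕ) (H H' : Subgroup (GF F)) : Prop :=
  (∀ U, X.StableUnder H U ↔ X.StableUnder H' U) ∧
  (∀ w ν U, EffectiveUnder X ℓ H w ν U ↔ EffectiveUnder X ℓ H' w ν U) ∧
  (∀ i ν, galoisConiveau X ℓ H i ν = galoisConiveau X ℓ H' i ν) ∧
  ∀ i ν N, GeneralizedTate X ℓ H i ν N ↔ GeneralizedTate X ℓ H' i ν N

end

/-- **The generalized Tate conjecture for varieties with semistable reduction.** -/
theorem result :
    -- the field of rational numbers has no unramified extension
    NoUnramified ℚ ∧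
    ∀ (F K V : Type) [Field F] [Field K] [CharZero K] [TopologicalSpace K] [T1Space K]
      [AddCommGroup V] [Module K V] [FiniteDimensional K V] (X : Rep F K V) (ℓ : ℕ),
      X.Unipotent ℓ → X.ConnectedAt ℓ → ∀ H : Subgroup (GF F), H.FiniteIndex →
        -- over general fields
        SameSubrepresentations X ℓ H (H ⊔ unr F) ∧
        -- over fields without unramified extensions
        (NoUnramified F → SameSubrepresentations X ℓ H ⊤) := by
  refine ⟨noUnramified_rat, ?_⟩
  intro F K V _ _ _ _ _ _ _ _ X ℓ hu hc H hH
  have hin : ∀ U, X.StableUnder H U → X.StableUnder (unr F) U := fun U hU g hg =>
    stable_sup hu hc hH hU g (Subgroup.mem_sup_right hg)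
  have key : ∀ H' : Subgroup (GF F), H ≤ H' → (∀ U, X.StableUnder H U → X.StableUnder H' U) →
      SameSubrepresentations X ℓ H H' := by
    intro H' hle hst
    have h1 : ∀ w ν U, EffectiveUnder X ℓ H w ν U ↔ EffectiveUnder X ℓ H' w ν U :=
      fun w ν U => effective_iff hu hH hle hst hin
    have h2 : ∀ i ν, galoisConiveau X ℓ H i ν = galoisConiveau X ℓ H' i ν := by
      intro i ν
      unfold galoisConiveau
      congr 1
      ext U
      exact h1 _ _ _
    refine ⟨fun U => ⟨hst U, fun hU g hg => hU g (hle hg)⟩, h1, h2, fun i ν N => ?_⟩
    unfold GeneralizedTate
    rw [h2]
  exact ⟨key _ le_sup_left fun U hU => stable_sup hu hc hH hU,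
    fun hF => key _ le_top fun U hU => stable_top hF hu hc hH hU⟩

end Pool.Agent.Results.MP_8abef2_ag.SemistableVarieties
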